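import Pool.Agent.H70.RG.Targets

/-!
# Partial regularity, part E, row RPF: the representation formula
-/

set_option autoImplicit false
set_option linter.unusedVariables false

namespace Pool.Agent.H74.RG

open MeasureTheory Metric Set Filter Topology Pool.Agent.H87.SN Pool.Agent.H70.RG
open scoped ContDiff

/-- derivative of a scaled kernel -/
theorem fd_sc {n : ℕ} (a : ℤ) {s : ℝ} (hs : 0 < s) (k : E n → ℝ) (hk : Differentiable ℝ k)
    (e : E n) : (fun y => fderiv ℝ (sc a s k) y e) = sc (a - 1) s (fun z => fderiv ℝ k z e) := by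
  funext y
  have h1 : HasFDerivAt (fun y : E n => s⁻¹ • y) (s⁻¹ • ContinuousLinearMap.id ℝ (E n)) y :=
    (hasFDerivAt_id y).const_smul s⁻¹
  have h2 : HasFDerivAt (fun y : E n => k (s⁻¹ • y))
      ((fderiv ℝ k (s⁻¹ • y)).comp (s⁻¹ • ContinuousLinearMap.id ℝ (E n))) y :=
    (hk (s⁻¹ • y)).hasFDerivAt.comp y h1
  have h3 : HasFDerivAt (sc a s k)
      (s ^ a • (fderiv ℝ k (s⁻¹ • y)).comp (s⁻¹ • ContinuousLinearMap.id ℝ (E n))) y :=
    h2.const_mul (s ^ a)
  rw [h3.fderiv]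
  show s ^ a * (fderiv ℝ k (s⁻¹ • y)) (s⁻¹ • e) = s ^ (a - 1) * fderiv ℝ k (s⁻¹ • y) e
  rw [map_smul, smul_eq_mul, zpow_sub_one₀ hs.ne', mul_assoc]

theorem diff_fd {n : ℕ} {k : E n → ℝ} (hk : ContDiff ℝ ∞ k) (e : E n) :
    ContDiff ℝ ∞ (fun z => fderiv ℝ k z e) :=
  (hk.fderiv_right (m := ∞) (by norm_num)).clm_apply contDiff_const

/-- the Laplace operator of a scaled kernel -/
theorem lp_sc {n : ℕ} (a : ℤ) {s : ℝ} (hs : 0 < s) (k : E n → ℝ) (hk : ContDiff ℝ ∞ k)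
    (z : E n) : lp (sc a s k) z = sc (a - 2) s (lp k) z := by
  unfold Pool.Agent.H70.RG.lp
  show _ = s ^ (a - 2) * ∑ i : Fin n, fderiv ℝ (fun y => fderiv ℝ k y (bv i)) (s⁻¹ • z) (bv i)
  rw [Finset.mul_sum]
  refine Finset.sum_congr rfl fun i _ => ?_
  rw [fd_sc a hs k (hk.differentiable (by norm_num)) (bv i)]
  have h := congrFun (fd_sc (a - 1) hs (fun z => fderiv ℝ k z (bv i))
    ((diff_fd hk (bv i)).differentiable (by norm_num)) (bv i)) z
  rw [h]
  show s ^ (a - 1 - 1) * _ = _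
  rw [show a - 1 - 1 = a - 2 by ring]

/-- derivative of a reflected kernel -/
theorem fd_rf {n : ℕ} (k : E n → ℝ) (hk : Differentiable ℝ k) (x e y : E n) :
    fderiv ℝ (fun y => k (x - y)) y e = -fderiv ℝ k (x - y) e := by
  have h1 : HasFDerivAt (fun y : E n => x - y) (-ContinuousLinearMap.id ℝ (E n)) y :=
    (hasFDerivAt_id y).const_sub x
  have h2 : HasFDerivAt (fun y : E n => k (x - y))
      ((fderiv ℝ k (x - y)).comp (-ContinuousLinearMap.id ℝ (E n))) y :=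
    (hk (x - y)).hasFDerivAt.comp y h1
  rw [h2.fderiv]
  show (fderiv ℝ k (x - y)) (-e) = _
  rw [map_neg]

theorem lp_rf {n : ℕ} (k : E n → ℝ) (hk : ContDiff ℝ ∞ k) (x y : E n) :
    lp (fun y => k (x - y)) y = lp k (x - y) := by
  unfold Pool.Agent.H70.RG.lp
  refine Finset.sum_congr rfl fun i _ => ?_
  have h1 : (fun y => fderiv ℝ (fun y => k (x - y)) y (bv i)) =
      fun y => -fderiv ℝ k (x - y) (bv i) := by
    funext y
    exact fd_rf k (hk.differentiable (by norm_num)) x (bv i) y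
  rw [h1]
  have h2 := fd_rf (fun z => fderiv ℝ k z (bv i))
    ((diff_fd hk (bv i)).differentiable (by norm_num)) x (bv i) y
  rw [show (fun y => -fderiv ℝ k (x - y) (bv i)) = -(fun y => fderiv ℝ k (x - y) (bv i)) from rfl,
    fderiv_neg, neg_apply, h2, neg_neg]

/-- the identity of the kernels -/
theorem ker_id {n : ℕ} {φ ζ : E n → ℝ} (hK : Ker n φ ζ) {s : ℝ} (hs : 0 < s) (z : E n) :
    sc (-n) (s / 2) φ z - sc (-n) s φ z = lp (sc (2 - n) s ζ) z := by
  rw [lp_sc _ hs ζ hK.sζ]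
  show (s / 2) ^ (-(n : ℤ)) * φ ((s / 2)⁻¹ • z) - s ^ (-(n : ℤ)) * φ (s⁻¹ • z) =
    s ^ ((2 : ℤ) - n - 2) * lp ζ (s⁻¹ • z)
  rw [← hK.lap, show (2 : ℤ) - n - 2 = -n by ring, div_zpow, smul_smul,
    show (s / 2)⁻¹ = 2 * s⁻¹ by rw [inv_div]; rfl]
  rw [zpow_neg, zpow_neg, zpow_natCast, zpow_natCast]
  field_simp

theorem sc_cd {n : ℕ} (a : ℤ) (s : ℝ) {k : E n → ℝ} (hk : ContDiff ℝ ∞ k) :
    ContDiff ℝ ∞ (sc a s k) :=
  contDiff_const.mul (hk.comp (contDiff_id.const_smul s⁻¹))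

theorem sc_sp {n : ℕ} (a : ℤ) {s : ℝ} (hs : 0 < s) {k : E n → ℝ}
    (hk : ∀ x, k x ≠ 0 → ‖x‖ ≤ 1) (x : E n) (hx : sc a s k x ≠ 0) : ‖x‖ ≤ s := by
  have h1 := hk _ (right_ne_zero_of_mul hx)
  rw [norm_smul, norm_inv, Real.norm_of_nonneg hs.le, inv_mul_le_iff₀ hs, mul_one] at h1
  exact h1

theorem int_kv {n : ℕ} {F : Type} [NormedAddCommGroup F] [NormedSpace ℝ F] {k : E n → ℝ}
    {v : E n → F} {x : E n} {s : ℝ} (hk : Continuous k) (hs : ∀ z, k z ≠ 0 → ‖z‖ ≤ s)
    (hv : ContinuousOn v (closedBall x s)) : Integrable (fun y => k (x - y) • v y) := by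
  have h1 : ContinuousOn (fun y => k (x - y) • v y) (closedBall x s) :=
    ((hk.comp (continuous_const.sub continuous_id)).continuousOn).smul hv
  refine (h1.integrableOn_compact (isCompact_closedBall x s)).integrable_of_forall_notMem_eq_zero ?_
  intro y hy
  have h2 : k (x - y) = 0 := by
    by_contra h
    refine hy ?_
    rw [mem_closedBall, dist_comm, dist_eq_norm]
    exact hs _ h
  rw [h2, zero_smul]

/-- the step of the telescoping sum -/
theorem step {n : ℕ} {φ ζ : E n → ℝ} (hK : Ker n φ ζ) {F : Type} [NormedAddCommGroup F]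
    [NormedSpace ℝ F] {U : Set (E n)} {v g : E n → F} (hv : ContinuousOn v U)
    (hw : WE U v g) {x : E n} {t : ℝ} (ht : closedBall x t ⊆ U) {s : ℝ}
    (hs : 0 < s) (hst : s ≤ t) :
    cv (sc (2 - n) s ζ) g x = cv (sc (-n) (s / 2) φ) v x - cv (sc (-n) s φ) v x := by
  have hsub : closedBall x s ⊆ U := (closedBall_subset_closedBall hst).trans ht
  have hT : TF U (fun y => sc (2 - n) s ζ (x - y)) := by
    have hz : ∀ y, y ∉ closedBall x s → sc (2 - n) s ζ (x - y) = 0 := by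
      intro y hy
      by_contra h
      refine hy ?_
      rw [mem_closedBall, dist_comm, dist_eq_norm]
      exact sc_sp _ hs hK.pζ _ h
    refine ⟨(sc_cd _ s hK.sζ).comp (contDiff_const.sub contDiff_id),
      HasCompactSupport.intro (isCompact_closedBall x s) hz, ?_⟩
    refine (closure_minimal ?_ isClosed_closedBall).trans hsub
    intro y hy
    by_contra h
    exact hy (hz y h)
  have h1 := hw _ hT
  have h2 : ∀ y, lp (fun y => sc (2 - n) s ζ (x - y)) y • v y =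
      sc (-n) (s / 2) φ (x - y) • v y - sc (-n) s φ (x - y) • v y := by
    intro y
    rw [lp_rf _ (sc_cd _ s hK.sζ), ← ker_id hK hs, sub_smul]
  have h3 : Integrable (fun y => sc (-n) (s / 2) φ (x - y) • v y) :=
    int_kv (sc_cd _ _ hK.sφ).continuous (fun z hz => sc_sp _ (half_pos hs) hK.pφ z hz)
      (hv.mono ((closedBall_subset_closedBall (by linarith)).trans hsub))
  have h4 : Integrable (fun y => sc (-n) s φ (x - y) • v y) :=
    int_kv (sc_cd _ _ hK.sφ).continuous (fun z hz => sc_sp _ hs hK.pφ z hz) (hv.mono hsub)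
  rw [integral_congr_ae (Eventually.of_forall h2), integral_sub h3 h4] at h1
  exact h1.symm

/-- scaled integrals -/
theorem int_sc {n : ℕ} (a : ℤ) {s : ℝ} (hs : 0 < s) (k : E n → ℝ) (x : E n) :
    ∫ y, sc a s k (x - y) = s ^ (a + n) * ∫ y, k y := by
  rw [integral_sub_left_eq_self (fun y => sc a s k y) volume x]
  unfold sc
  rw [integral_const_mul, Measure.integral_comp_inv_smul_of_nonneg volume k hs.le,
    finrank_euclideanSpace_fin, smul_eq_mul, ← mul_assoc, zpow_add₀ hs.ne', zpow_natCast]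

/-- the limit -/
theorem lim_cv {n : ℕ} {φ ζ : E n → ℝ} (hK : Ker n φ ζ) {F : Type} [NormedAddCommGroup F]
    [NormedSpace ℝ F] [CompleteSpace F] {U : Set (E n)} (hU : IsOpen U) {v : E n → F}
    (hv : ContinuousOn v U) {x : E n} (hx : x ∈ U) :
    Tendsto (fun s => cv (sc (-n) s φ) v x) (𝓝[>] 0) (𝓝 (v x)) := by
  rw [Metric.tendsto_nhds]
  intro ε hε
  have h1 : ContinuousAt v x := hv.continuousAt (hU.mem_nhds hx)
  obtain ⟨δ, hδ, h2⟩ := Metric.continuousAt_iff.1 h1 (ε / 2) (half_pos hε)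
  obtain ⟨ρ, hρ, h3⟩ := Metric.isOpen_iff.1 hU x hx
  have h4 : ∀ᶠ s in 𝓝[>] (0 : ℝ), s < min δ ρ :=
    mem_nhdsWithin_of_mem_nhds (Iio_mem_nhds (lt_min hδ hρ))
  filter_upwards [h4, self_mem_nhdsWithin] with s hs hs0
  have hs0' : (0 : ℝ) < s := hs0
  have hsub : closedBall x s ⊆ U := fun y hy => h3 (by
    rw [mem_ball]
    exact (mem_closedBall.1 hy).trans_lt (hs.trans_le (min_le_right _ _)))
  have hcs : Continuous (sc (-n) s φ) := (sc_cd _ _ hK.sφ).continuous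
  have hsp : ∀ z, sc (-n) s φ z ≠ 0 → ‖z‖ ≤ s := fun z hz => sc_sp _ hs0' hK.pφ z hz
  have hi1 : Integrable (fun y => sc (-n) s φ (x - y) • v y) := int_kv hcs hsp (hv.mono hsub)
  have hi2 : Integrable (fun y => sc (-n) s φ (x - y) • v x) := int_kv hcs hsp continuousOn_const
  have hi3 : Integrable (fun y => sc (-n) s φ (x - y) • (ε / 2)) :=
    int_kv hcs hsp continuousOn_const
  have hone : ∫ y, sc (-n) s φ (x - y) = 1 := by
    rw [int_sc _ hs0', hK.one, neg_add_cancel, zpow_zero, mul_one]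
  have h5 : v x = ∫ y, sc (-n) s φ (x - y) • v x := by
    rw [integral_smul_const, hone, one_smul]
  have hnn : ∀ z, 0 ≤ sc (-n) s φ z := fun z =>
    mul_nonneg (zpow_nonneg hs0'.le _) (hK.nn _)
  have h6 : ‖cv (sc (-n) s φ) v x - v x‖ ≤ ε / 2 := by
    have h7 : cv (sc (-n) s φ) v x - v x =
        ∫ y, (sc (-n) s φ (x - y) • v y - sc (-n) s φ (x - y) • v x) := by
      rw [integral_sub hi1 hi2, ← h5]
      rfl
    rw [h7]
    have h8 : ∫ y, sc (-n) s φ (x - y) • (ε / 2) = ε / 2 := by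
      rw [integral_smul_const, hone, one_smul]
    rw [← h8]
    refine norm_integral_le_of_norm_le hi3 (Eventually.of_forall fun y => ?_)
    show ‖sc (-n) s φ (x - y) • v y - sc (-n) s φ (x - y) • v x‖ ≤
      sc (-n) s φ (x - y) • (ε / 2)
    rw [← smul_sub, norm_smul, Real.norm_of_nonneg (hnn _), smul_eq_mul]
    by_cases h : sc (-n) s φ (x - y) = 0
    · rw [h, zero_mul, zero_mul]
    · refine mul_le_mul_of_nonneg_left ?_ (hnn _)
      have h9 : dist y x < δ := by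
        rw [dist_comm, dist_eq_norm]
        exact (hsp _ h).trans_lt (hs.trans_le (min_le_left _ _))
      have h10 := h2 h9
      rw [dist_eq_norm] at h10
      exact h10.le
  rw [dist_eq_norm]
  linarith

/-- the bound of the terms -/
theorem term_le {n : ℕ} {φ ζ : E n → ℝ} (hK : Ker n φ ζ) {F : Type} [NormedAddCommGroup F]
    [NormedSpace ℝ F] {g : E n → F} {x : E n} {t G : ℝ}
    (hG : ∀ y ∈ closedBall x t, ‖g y‖ ≤ G) {s : ℝ} (hs : 0 < s) (hst : s ≤ t) :
    ‖cv (sc (2 - n) s ζ) g x‖ ≤ s ^ 2 * ((∫ y, |ζ y|) * G) := by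
  have hsp : ∀ z, sc (2 - n) s ζ z ≠ 0 → ‖z‖ ≤ s := fun z hz => sc_sp _ hs hK.pζ z hz
  have h0 : ∀ z, |sc (2 - n) s ζ z| = sc (2 - n) s (fun w => |ζ w|) z := by
    intro z
    show |s ^ ((2 : ℤ) - n) * ζ (s⁻¹ • z)| = s ^ ((2 : ℤ) - n) * |ζ (s⁻¹ • z)|
    rw [abs_mul, abs_of_nonneg (zpow_nonneg hs.le _)]
  have hca : Continuous (sc (2 - n) s (fun w => |ζ w|)) := by
    have h : sc (2 - n) s (fun w => |ζ w|) = fun z => |sc (2 - n) s ζ z| := by
      funext z
      exact (h0 z).symm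
    rw [h]
    exact (sc_cd _ _ hK.sζ).continuous.abs
  have hi : Integrable (fun y => sc (2 - n) s (fun w => |ζ w|) (x - y) • G) := by
    refine int_kv (s := s) hca (fun z hz => sc_sp _ hs ?_ z hz) continuousOn_const
    intro w hw
    exact hK.pζ w (abs_ne_zero.1 hw)
  have h1 : ∫ y, sc (2 - n) s (fun w => |ζ w|) (x - y) • G = s ^ 2 * ((∫ y, |ζ y|) * G) := by
    rw [integral_smul_const, int_sc _ hs, smul_eq_mul, sub_add_cancel]
    rw [show s ^ (2 : ℤ) = s ^ 2 from zpow_ofNat s 2]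
    ring
  rw [← h1]
  refine norm_integral_le_of_norm_le hi (Eventually.of_forall fun y => ?_)
  show ‖sc (2 - n) s ζ (x - y) • g y‖ ≤ sc (2 - n) s (fun w => |ζ w|) (x - y) • G
  rw [norm_smul, Real.norm_eq_abs, h0, smul_eq_mul]
  by_cases h : sc (2 - n) s ζ (x - y) = 0
  · have h2 : sc (2 - n) s (fun w => |ζ w|) (x - y) = 0 := by rw [← h0, h, abs_zero]
    rw [h2, zero_mul, zero_mul]
  · refine mul_le_mul_of_nonneg_left (hG y ?_) (by rw [← h0]; exact abs_nonneg _)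
    rw [mem_closedBall, dist_comm, dist_eq_norm]
    exact (hsp _ h).trans hst

theorem pf_RPF (h : T_CVL) : T_RPF := by
  intro n φ ζ hK F _ _ _ U v g hU hv hg hw x t ht hsub
  have hpos : ∀ k : ℕ, 0 < t / 2 ^ k := fun k => div_pos ht (by positivity)
  have hle : ∀ k : ℕ, t / 2 ^ k ≤ t := fun k =>
    div_le_self ht.le (one_le_pow₀ (by norm_num))
  have hstep : ∀ k : ℕ, cv (sc (2 - n) (t / 2 ^ k) ζ) g x =
      cv (sc (-n) (t / 2 ^ (k + 1)) φ) v x - cv (sc (-n) (t / 2 ^ k) φ) v x := by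
    intro k
    rw [step hK hv hw hsub (hpos k) (hle k), div_div, ← pow_succ]
  obtain ⟨G, hG⟩ := (isCompact_closedBall x t).exists_bound_of_continuousOn (hg.mono hsub)
  have hsum : Summable (fun k : ℕ => cv (sc (2 - n) (t / 2 ^ k) ζ) g x) := by
    refine Summable.of_norm_bounded
      (g := fun k : ℕ => (t ^ 2 * ((∫ y, |ζ y|) * G)) * (1 / 4 : ℝ) ^ k)
      ((summable_geometric_of_lt_one (by norm_num) (by norm_num)).mul_left _) ?_
    intro k
    refine (term_le hK hG (hpos k) (hle k)).trans (le_of_eq ?_)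
    rw [div_pow, ← pow_mul, mul_comm k 2, pow_mul, one_div, inv_pow]
    norm_num
    ring
  rw [hsum.hasSum_iff_tendsto_nat]
  have h1 : ∀ K : ℕ, ∑ k ∈ Finset.range K, cv (sc (2 - n) (t / 2 ^ k) ζ) g x =
      cv (sc (-n) (t / 2 ^ K) φ) v x - cv (sc (-n) t φ) v x := by
    intro K
    rw [Finset.sum_congr rfl fun k _ => hstep k,
      Finset.sum_range_sub (fun k => cv (sc (-n) (t / 2 ^ k) φ) v x), pow_zero, div_one]
  simp only [h1]
  refine Tendsto.sub_const ?_ _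
  have h2 : Tendsto (fun K : ℕ => t / 2 ^ K) atTop (𝓝[>] 0) := by
    refine tendsto_nhdsWithin_iff.2 ⟨?_, Eventually.of_forall hpos⟩
    have h3 : Tendsto (fun K : ℕ => t * (1 / 2 : ℝ) ^ K) atTop (𝓝 (t * 0)) :=
      (tendsto_pow_atTop_nhds_zero_of_lt_one (by norm_num) (by norm_num)).const_mul t
    rw [mul_zero] at h3
    refine h3.congr fun K => ?_
    rw [one_div, inv_pow, div_eq_mul_inv]
  exact (lim_cv hK hU hv (hsub (mem_closedBall_self ht.le))).comp h2

end Pool.Agent.H74.RG
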